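import Pool.Agent.Helper71.PR.Goals
import Pool.Agent.Helper71.PR.Basic

/-!
# Project PR (MP_af9e5e_al), packet PR-CL: the closure of the set of frames of compact flats is admissible
-/

set_option autoImplicit false

namespace Pool.Agent.Helper55.PR

open Matrix Filter Topology
open Pool.Agent.Helper71.PR

/-! ## Invariance of frames of compact flats -/

theorem flat_perm {n : ℕ} {Γ : Subgroup (SLn n)} {k : Mt n} (h : Flat Γ k) (σ : Equiv.Perm (Fin n)) :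
    Flat Γ (k.submatrix id σ) := by
  obtain ⟨R, hR⟩ := h
  refine ⟨R, fun y hy => ?_⟩
  have hy' : ∑ i, y (σ.symm i) = 0 := by
    rw [Equiv.sum_comp σ.symm y]
    exact hy
  obtain ⟨γ, hγ, μ, h1, h2⟩ := hR (fun i => y (σ.symm i)) hy'
  refine ⟨γ, hγ, fun i => μ (σ i), ?_, fun i => ?_⟩
  · have e1 : k.submatrix id σ = k.submatrix (Equiv.refl (Fin n)) σ := rfl
    have e2 : (k.submatrix (Equiv.refl (Fin n)) σ)⁻¹ = (k⁻¹).submatrix σ (Equiv.refl (Fin n)) :=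
      Matrix.inv_submatrix_equiv k (Equiv.refl (Fin n)) σ
    have e3 : diagonal (fun i => μ (σ i)) = (diagonal μ).submatrix σ σ :=
      (Matrix.submatrix_diagonal_equiv μ σ).symm
    rw [e1, e2, e3, Matrix.submatrix_mul_equiv, Matrix.submatrix_mul_equiv, h1]
    rfl
  · have h3 := h2 (σ i)
    simpa using h3

theorem flat_diag {n : ℕ} {Γ : Subgroup (SLn n)} {k : Mt n} (h : Flat Γ k) (d : Fin n → ℝ) (hd : ∀ i, d i ≠ 0) :
    Flat Γ (k * diagonal d) := by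
  obtain ⟨R, hR⟩ := h
  refine ⟨R, fun y hy => ?_⟩
  obtain ⟨γ, hγ, μ, h1, h2⟩ := hR y hy
  refine ⟨γ, hγ, μ, ?_, h2⟩
  have hdet : IsUnit (diagonal d).det := by
    rw [Matrix.det_diagonal, isUnit_iff_ne_zero]
    exact Finset.prod_ne_zero_iff.2 fun i _ => hd i
  have hc : diagonal d * diagonal μ = diagonal μ * diagonal d := by
    rw [Matrix.diagonal_mul_diagonal, Matrix.diagonal_mul_diagonal]
    congr 1
    funext i
    exact mul_comm _ _
  calc γ.1 = k * diagonal μ * k⁻¹ := h1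
    _ = k * diagonal μ * (diagonal d * (diagonal d)⁻¹) * k⁻¹ := by
        rw [Matrix.mul_nonsing_inv _ hdet, Matrix.mul_one]
    _ = k * (diagonal μ * diagonal d) * ((diagonal d)⁻¹ * k⁻¹) := by
        simp only [Matrix.mul_assoc]
    _ = k * diagonal d * diagonal μ * (k * diagonal d)⁻¹ := by
        rw [← hc, Matrix.mul_inv_rev]
        simp only [Matrix.mul_assoc]

theorem sl_inv_val {n : ℕ} (γ : SLn n) : (γ⁻¹).1 = (γ.1)⁻¹ := by
  symm
  apply Matrix.inv_eq_right_inv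
  have h : (γ * γ⁻¹).1 = (1 : SLn n).1 := by rw [mul_inv_cancel]
  exact h

theorem flat_inv {n : ℕ} {Γ : Subgroup (SLn n)} {k : Mt n} (h : Flat Γ k) (γ' : SLn n) (hγ' : γ' ∈ Γ) :
    Flat Γ (γ'.1 * k) := by
  obtain ⟨R, hR⟩ := h
  refine ⟨R, fun y hy => ?_⟩
  obtain ⟨γ, hγ, μ, h1, h2⟩ := hR y hy
  refine ⟨γ' * γ * γ'⁻¹, Γ.mul_mem (Γ.mul_mem hγ' hγ) (Γ.inv_mem hγ'), μ, ?_, h2⟩
  have e : (γ' * γ * γ'⁻¹).1 = γ'.1 * γ.1 * (γ'⁻¹).1 := rfl
  rw [e, sl_inv_val, h1, Matrix.mul_inv_rev]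
  simp only [Matrix.mul_assoc]

/-! ## The closure -/

theorem det_diagonal_ne {n : ℕ} (d : Fin n → ℝ) (hd : ∀ i, d i ≠ 0) : (diagonal d).det ≠ 0 := by
  rw [Matrix.det_diagonal]
  exact Finset.prod_ne_zero_iff.2 fun i _ => hd i

theorem det_perm_ne {n : ℕ} (k : Mt n) (σ : Equiv.Perm (Fin n)) (hk : k.det ≠ 0) : (k.submatrix id σ).det ≠ 0 := by
  have h := Matrix.det_permute' σ k
  have e : (k.submatrix id σ).det = (Equiv.Perm.sign σ : ℝ) * k.det := by exact_mod_cast h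
  rw [e]
  refine mul_ne_zero ?_ hk
  rcases Int.units_eq_one_or (Equiv.Perm.sign σ) with h1 | h1 <;> rw [h1] <;> simp

theorem clS_s3 (h1 : G_LDUS) (h2 : G_UNI) (h3 : G_S3P) (n : ℕ) (hn : 2 ≤ n) (Γ : Subgroup (SLn n)) (hLF : LF Γ) (hZD : ZD Γ)
    (hCov : ¬ Cov Γ (n - 2)) : ∀ k ∈ clS Γ, ∀ k' ∈ clS Γ, ∀ u l : Mt n, UppU u → LowT l → l.det ≠ 0 → k * u = k' * l →
      k * u ∈ clS Γ := by
  intro k hk k' hk' u l hu hl hld hkl
  obtain ⟨hkd, hkc⟩ := hk
  obtain ⟨hkd', hkc'⟩ := hk'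
  have : FrechetUrysohnSpace (Mt n) := inferInstanceAs (FrechetUrysohnSpace (Fin n → Fin n → ℝ))
  obtain ⟨x, hxS, hx⟩ := mem_closure_iff_seq_limit.1 hkc
  obtain ⟨x', hxS', hx'⟩ := mem_closure_iff_seq_limit.1 hkc'
  have hkuk : k'⁻¹ * k = l * u⁻¹ := by
    have e1 : k'⁻¹ * (k * u) = l := by
      rw [hkl, ← Matrix.mul_assoc, Matrix.nonsing_inv_mul _ (isUnit_iff_ne_zero.2 hkd'), Matrix.one_mul]
    calc k'⁻¹ * k = k'⁻¹ * k * (u * u⁻¹) := by
          rw [Matrix.mul_nonsing_inv _ hu.isUnit, Matrix.mul_one]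
      _ = k'⁻¹ * (k * u) * u⁻¹ := by simp only [Matrix.mul_assoc]
      _ = l * u⁻¹ := by rw [e1]
  have hY : Tendsto (fun m => (x' m)⁻¹ * x m) atTop (𝓝 (l * u⁻¹)) := by
    rw [← hkuk]
    exact (tendsto_inv_mt hx' hkd').mul hx
  obtain ⟨L, U, d, L0, U0, C, hL, hU, hL0, hU0, hLt, hUt, -, -, hd, hYe, -, -⟩ :=
    h1 n (fun m => (x' m)⁻¹ * x m) (fun _ _ => 1) (fun j => cp ((j : ℕ) + 1) (l * u⁻¹))
      (fun j => by
        simp only [one_smul]
        exact cp_tendsto _ hY)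
      (fun j => ld_lowT_mul_ne hl hld hu.inv j)
  -- the limit of the diagonal parts
  have hLd0 : L0.det ≠ 0 := by rw [hL0.det]; exact one_ne_zero
  have hUd0 : U0.det ≠ 0 := by rw [hU0.det]; exact one_ne_zero
  have hud : u.det ≠ 0 := by rw [hu.det]; exact one_ne_zero
  have hD : Tendsto (fun m => diagonal (d m)) atTop (𝓝 (L0⁻¹ * (l * u⁻¹) * U0⁻¹)) := by
    have e : Tendsto (fun m => (L m)⁻¹ * ((x' m)⁻¹ * x m) * (U m)⁻¹) atTop (𝓝 (L0⁻¹ * (l * u⁻¹) * U0⁻¹)) :=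
      ((tendsto_inv_mt hLt hLd0).mul hY).mul (tendsto_inv_mt hUt hUd0)
    refine e.congr' ?_
    filter_upwards [hYe] with m hm
    rw [hm]
    calc (L m)⁻¹ * (L m * diagonal (d m) * U m) * (U m)⁻¹
        = ((L m)⁻¹ * L m) * diagonal (d m) * (U m * (U m)⁻¹) := by simp only [Matrix.mul_assoc]
      _ = diagonal (d m) := by
          rw [Matrix.nonsing_inv_mul _ (hL m).isUnit, Matrix.mul_nonsing_inv _ (hU m).isUnit, Matrix.one_mul, Matrix.mul_one]
  set D0 : Mt n := L0⁻¹ * (l * u⁻¹) * U0⁻¹ with hD0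
  have hD0diag : ∀ i j, i ≠ j → D0 i j = 0 := by
    intro i j hij
    have h4 := tendsto_entry hD i j
    have h5 : (fun m => diagonal (d m) i j) = fun _ : ℕ => (0 : ℝ) := by
      funext m
      exact Matrix.diagonal_apply_ne _ hij
    rw [h5] at h4
    exact tendsto_nhds_unique h4 tendsto_const_nhds
  have hD0low : LowT D0 := fun i j hij => hD0diag i j (ne_of_lt hij)
  have hD0det : D0.det ≠ 0 := by
    rw [hD0, Matrix.det_mul, Matrix.det_mul, Matrix.det_mul, hL0.inv.det, hU0.inv.det, hu.inv.det]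
    simpa using hld
  have hfac : l * u⁻¹ = (L0 * D0) * U0 := by
    symm
    calc (L0 * D0) * U0 = (L0 * L0⁻¹) * (l * u⁻¹) * (U0⁻¹ * U0) := by
          rw [hD0]; simp only [Matrix.mul_assoc]
      _ = l * u⁻¹ := by
          rw [Matrix.mul_nonsing_inv _ hL0.isUnit, Matrix.nonsing_inv_mul _ hU0.isUnit, Matrix.one_mul, Matrix.mul_one]
  have hU0u : u⁻¹ = U0 := by
    refine h2 n l (L0 * D0) u⁻¹ U0 hl (hL0.lowT.mul hD0low) hld ?_ hu.inv hU0 hfac
    rw [Matrix.det_mul]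
    exact mul_ne_zero hLd0 hD0det
  have hUinv : Tendsto (fun m => (U m)⁻¹) atTop (𝓝 u) := by
    have h4 := tendsto_inv_mt hUt hUd0
    rw [← hU0u, Matrix.nonsing_inv_nonsing_inv _ hu.isUnit] at h4
    exact h4
  have hlim : Tendsto (fun m => x m * (U m)⁻¹) atTop (𝓝 (k * u)) := hx.mul hUinv
  refine ⟨by rw [Matrix.det_mul]; exact mul_ne_zero hkd hud, ?_⟩
  -- approximate
  have hkey : ∀ᶠ m in atTop, ∀ ε > 0, ∃ k'' : Mt n, k''.det ≠ 0 ∧ Flat Γ k'' ∧ near k'' (x m * (U m)⁻¹) ε := by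
    filter_upwards [hYe] with m hm
    have hxm : x m = x' m * (L m * diagonal (d m) * U m) := by
      rw [← hm, ← Matrix.mul_assoc, Matrix.mul_nonsing_inv _ (isUnit_iff_ne_zero.2 (hxS' m).1), Matrix.one_mul]
    refine h3 n hn Γ hLF hZD hCov (x m) (x' m) (U m)⁻¹ (L m * diagonal (d m)) (hxS m).1 (hxS' m).1 (hxS m).2 (hxS' m).2
      (hU m).inv ((hL m).lowT.mul (lowT_diagonal _)) ?_ ?_
    · rw [Matrix.det_mul, (hL m).det, one_mul]
      exact det_diagonal_ne _ (hd m)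
    · calc x m * (U m)⁻¹ = x' m * (L m * diagonal (d m) * U m) * (U m)⁻¹ := by rw [← hxm]
        _ = x' m * (L m * diagonal (d m)) * (U m * (U m)⁻¹) := by simp only [Matrix.mul_assoc]
        _ = x' m * (L m * diagonal (d m)) := by
            rw [Matrix.mul_nonsing_inv _ (hU m).isUnit, Matrix.mul_one]
  obtain ⟨N, hN⟩ := eventually_atTop.1 hkey
  have hch : ∀ m : ℕ, ∃ k'' : Mt n, k''.det ≠ 0 ∧ Flat Γ k'' ∧
      near k'' (x (m + N) * (U (m + N))⁻¹) (1 / ((m : ℝ) + 1)) := by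
    intro m
    exact hN (m + N) (Nat.le_add_left N m) _ (by positivity)
  choose z hz1 hz2 hz3 using hch
  have hlim' : Tendsto (fun m => x (m + N) * (U (m + N))⁻¹) atTop (𝓝 (k * u)) :=
    hlim.comp (tendsto_add_atTop_nat N)
  have hzlim : Tendsto z atTop (𝓝 (k * u)) := tendsto_of_near hlim' hz3
  exact mem_closure_of_tendsto hzlim (Eventually.of_forall fun m => ⟨hz1 m, hz2 m⟩)

/-- the set of limits of frames of compact flats is admissible -/
theorem cl_lem (h1 : G_LDUS) (h2 : G_UNI) (h3 : G_S3P) : G_CL := by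
  intro n hn Γ hLF hZD hCov
  refine ⟨fun k hk => hk.1, ?_, ?_, ?_, clS_s3 h1 h2 h3 n hn Γ hLF hZD hCov, ?_⟩
  · intro k k0 hk hlim hdet
    exact ⟨hdet, isClosed_closure.mem_of_tendsto hlim (Eventually.of_forall fun m => (hk m).2)⟩
  · intro k hk σ
    refine ⟨det_perm_ne k σ hk.1, ?_⟩
    refine map_mem_closure (f := fun A : Mt n => A.submatrix id σ)
      (Continuous.matrix_submatrix continuous_id id σ) hk.2 ?_
    intro A hA
    exact ⟨det_perm_ne A σ hA.1, flat_perm hA.2 σ⟩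
  · intro k hk d hd
    have hdd := det_diagonal_ne d hd
    refine ⟨by rw [Matrix.det_mul]; exact mul_ne_zero hk.1 hdd, ?_⟩
    refine map_mem_closure (f := fun A : Mt n => A * diagonal d)
      (continuous_id.matrix_mul continuous_const) hk.2 ?_
    intro A hA
    exact ⟨by rw [Matrix.det_mul]; exact mul_ne_zero hA.1 hdd, flat_diag hA.2 d hd⟩
  · intro k hk γ hγ
    have hγd : γ.1.det ≠ 0 := by rw [γ.2]; exact one_ne_zero
    refine ⟨by rw [Matrix.det_mul]; exact mul_ne_zero hγd hk.1, ?_⟩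
    refine map_mem_closure (f := fun A : Mt n => γ.1 * A)
      (continuous_const.matrix_mul continuous_id) hk.2 ?_
    intro A hA
    exact ⟨by rw [Matrix.det_mul]; exact mul_ne_zero hγd hA.1, flat_inv hA.2 γ hγ⟩

end Pool.Agent.Helper55.PR
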